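import Pool.Agent.Lib_MP_38e082_all.Final

/-!
# MP_38e082_lc, Q1: ZFC + GCH does not prove `(λ⁺, λ⁺, λ) → (cf λ)⁺` for any singular `λ`

There is one structure `(M, E)` for the language of set theory which is an `ω`-model of ZFC + GCH
and in which the relation fails at EVERY singular cardinal: whenever, in the sense of `(M, E)`, `m`
is an infinite regular cardinal, `l > m` is a cardinal of cofinality `m` and `k = l⁺`, there is
`f ∈ M` such that, in the sense of `(M, E)`, `f` is a set mapping on `k` with `f(x) ⊆ x` such that
`⋂ f[X]` has size less than `l` for every `X ⊆ k` of size `k`, while every free set has size at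
most `m`. Nothing is assumed.
-/

namespace Pool.Agent.Results.MP_38e082_lc.ConsistentFailure

open Pool.Agent.FreeSets Pool.Agent.FreeSetsG Pool.Agent.Forcing Pool.Agent.Inner

theorem result : ∃ (M : Type 2) (E : M → M → Prop), ModelsZFC E ∧ OmegaModel E ∧ GCH E ∧
    ∀ m l k : M, SingularCof E m l → IsSuccCard E l k → ∃ f, Counterexample E m l k f :=
  Pool.Agent.FreeSetsA.exists_model_all'

end Pool.Agent.Results.MP_38e082_lc.ConsistentFailure
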