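import Pool.Agent.Lib_MP_38e082_all.Final
import Pool.Agent.Lib_MP_38e082_mm.Fin
import Pool.Agent.Lib_MP_38e082_pb.Main

/-!
# MP_38e082_lc, Q1: the relation `(λ⁺, λ⁺, λ) → (cf λ)⁺` is neither provable nor refutable

(a) There is one structure `(M, E)` for the language of set theory which is an `ω`-model of ZFC + GCH
and in which the relation fails at every singular cardinal: whenever, in the sense of `(M, E)`, `m`
is an infinite regular cardinal, `l > m` is a cardinal of cofinality `m` and `k = l⁺`, there is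
`f ∈ M` such that `f` is a set mapping on `k` with `f(x) ⊆ x` such that `⋂ f[X]` has size less than
`l` for every `X ⊆ k` of size `k`, while every free set has size at most `m`.

(b) In ZFC the relation holds, even with any `ν < λ` instead of `(cf λ)⁺`, for every singular strong
limit cardinal `λ`, of any cofinality, at which SCH fails in the following strong sense: there are
regular cardinals `d i < λ`, `i ∈ I`, `#I < λ`, and a proper filter `F` on `I` with `c < d i` for
`F`-almost all `i`, for each `c < λ`, and `m`, `n` with `2^c < (d i)^{+m}` for `c < d i` and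
`2^((d i)^{+m}) ≤ (d i)^{+n}`, such that for each `k ≤ n` every family of `λ⁺` many functions in
`∏ (d i)^{+k}` is bounded modulo `F`.

(c) Martin's Maximum implies the relation for every singular cardinal `λ` of cofinality `ω`.
-/

namespace Pool.Agent.Results.MP_38e082_lc.Independence

open Cardinal Order Pool.Agent.FreeSets Pool.Agent.FreeSetsG Pool.Agent.Forcing Pool.Agent.Inner
  Pool.Agent.Lib_MP_38e082_mm Pool.Agent.Lib_MP_38e082_ap Pool.Agent.Lib_MP_38e082_pb

theorem result :
    (∃ (M : Type 2) (E : M → M → Prop), ModelsZFC E ∧ OmegaModel E ∧ GCH E ∧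
      ∀ m l k : M, SingularCof E m l → IsSuccCard E l k → ∃ f, Counterexample E m l k f) ∧
    (∀ (lam : Cardinal.{0}) (I : Type) (F : Filter I) (d : I → Cardinal.{0}) (m n : ℕ),
      F.NeBot → #I < lam → (∀ i, (d i).IsRegular ∧ d i < lam) →
      (∀ c < lam, ∀ᶠ i in F, c < d i) →
      (∀ i, (∀ c < d i, 2 ^ c < succ^[m] (d i)) ∧ 2 ^ (succ^[m] (d i)) ≤ succ^[n] (d i)) →
      (∀ k ≤ n, Bounded lam F fun i => succ^[k] (d i)) →
      succ lam.ord.cof < lam ∧ ∀ nu < lam, Arrow (succ lam) (succ lam) lam nu) ∧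
    (MM → ∀ lam : Cardinal.{0}, ℵ₀ < lam → lam.ord.cof = ℵ₀ →
      Arrow (succ lam) (succ lam) lam (succ lam.ord.cof)) := by
  refine ⟨Pool.Agent.FreeSetsA.exists_model_all',
    fun lam I F d m n hF hI hd hlim hpow hb => ?_, fun hMM lam h0 hcof S f hS hff hfc hI => ?_⟩
  · have h : Ctx lam F d m n := ⟨hF, hI, fun i => (hd i).1, fun i => (hd i).2,
      fun i => (hpow i).1, fun i => (hpow i).2, hlim, hb⟩
    exact ⟨succ_cof_lt h, fun nu hnu => main h hnu⟩
  · obtain ⟨P, _, _, hP, D, hD, hG⟩ := Pool.Agent.Lib_MP_38e082_mm.final h0 hcof hS hff hfc hI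
    obtain ⟨G, hGf, hGD⟩ := hMM P hP D hD
    obtain ⟨H, hH, hfree⟩ := hG G hGf hGD
    refine ⟨H, ?_, hfree⟩
    rw [hH, hcof, succ_aleph0]

end Pool.Agent.Results.MP_38e082_lc.Independence
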