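import Pool.Agent.Lib_MP_38e082_mm.Fin

/-!
# MP_38e082_lc, Q1 at cofinality `ω`: the positive direction

Let `lam` be a singular cardinal of cofinality `ω` and let `f` be a set mapping on a set `S` of
size `lam⁺` with `|f(x)| ≤ lam` and `|⋂ f[X]| < lam` for all `X ⊆ S` of size `lam⁺`. Then (in ZFC)
there are a poset `P` which preserves all stationary subsets of `ω₁` and `ω₁` dense subsets of `P`
such that every filter which meets these dense sets yields a free set of size `ℵ₁ = (cf lam)⁺`.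
So Martin's Maximum implies `(lam⁺, lam⁺, lam) → (cf lam)⁺` for all singular `lam` of cofinality `ω`.
-/

open Cardinal Set Order

namespace Pool.Agent.Results.MP_38e082_lc.MartinsMaximum

open Pool.Agent.Lib_MP_38e082_mm

theorem result (lam : Cardinal.{0}) (h0 : ℵ₀ < lam) (hcof : lam.ord.cof = ℵ₀)
    (S : Type) (f : S → Set S) (hS : #S = succ lam) (hff : ∀ x, x ∉ f x)
    (hfc : ∀ x, #(f x) ≤ lam)
    (hI : ∀ X : Set S, #X = succ lam → #(⋂ x ∈ X, f x : Set S) < lam) :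
    (∃ (P : Type) (_ : Preorder P), Nonempty P ∧ SSP P ∧
      ∃ D : Om → Set P, (∀ a, Den (D a)) ∧
        ∀ G : Set P, Filt G → (∀ a, ∃ p ∈ G, p ∈ D a) →
          ∃ H : Set S, #H = ℵ₁ ∧ ∀ x ∈ H, ∀ y ∈ H, x ≠ y → y ∉ f x) ∧
    (MM → ∃ H : Set S, #H = succ lam.ord.cof ∧ ∀ x ∈ H, ∀ y ∈ H, x ≠ y → y ∉ f x) := by
  have h := final h0 hcof hS hff (fun x => lt_of_le_of_lt (hfc x) (lt_succ lam)) hI
  refine ⟨h, fun hMM => ?_⟩
  obtain ⟨P, _, _, hP, D, hD, hG⟩ := h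
  obtain ⟨G, hGf, hGD⟩ := hMM P hP D hD
  obtain ⟨H, hH, hfree⟩ := hG G hGf hGD
  refine ⟨H, ?_, hfree⟩
  rw [hH, hcof, succ_aleph0]

end Pool.Agent.Results.MP_38e082_lc.MartinsMaximum
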