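import Pool.Agent.Lib_MP_38e082_un.Fin

/-!
# MP_38e082_lc, Q1: GCH refutes the relation at all singular cardinals of uncountable cofinality

Let `λ` be a singular cardinal, `μ = cf λ`, with `2^λ = λ⁺` and `2^c ≤ μ` for `c < μ` (all this
holds under GCH). If `μ` is uncountable then `(λ⁺, λ⁺, λ) → (cf λ)⁺` fails: there is a set mapping
`f` on `λ⁺` with `f(x) ⊆ x` such that `|⋂ f[X]| < λ` for all `X` of size `λ⁺`, and no free set has
size `(cf λ)⁺`. Nothing else is assumed. For `μ = ω` the same holds if almost all points of `λ⁺` of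
cofinality `μ⁺` are approachable, or if there is a normal colouring of the pairs of `λ⁺` with `μ`
colours which is bounded on a subset of size `μ⁺` of every set of size `μ⁺`. In particular GCH
implies that the relation fails for every singular cardinal of uncountable cofinality.
-/

namespace Pool.Agent.Results.MP_38e082_lc.UncountableCofinality

open Cardinal Set Order Pool.Agent.Lib_MP_38e082_ap Pool.Agent.Lib_MP_38e082_un

theorem result :
    (∀ lam : Cardinal.{0}, ℵ₀ ≤ lam → lam.ord.cof < lam → 2 ^ lam = succ lam →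
      (∀ c < lam.ord.cof, (2 : Cardinal.{0}) ^ c ≤ lam.ord.cof) →
      (ℵ₀ < lam.ord.cof ∨ Approachable lam.ord.cof (succ lam).ord.ToType ∨
        BoundedColouring lam lam.ord.cof (succ lam).ord.ToType) →
      (∃ f : (succ lam).ord.ToType → Set (succ lam).ord.ToType, (∀ x, f x ⊆ Iio x) ∧
        (∀ X : Set (succ lam).ord.ToType, #X = succ lam →
          #(⋂ x ∈ X, f x : Set (succ lam).ord.ToType) < lam) ∧
        ∀ H : Set (succ lam).ord.ToType, #H = succ lam.ord.cof →
          ∃ x ∈ H, ∃ y ∈ H, x ≠ y ∧ y ∈ f x) ∧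
      ¬ Arrow (succ lam) (succ lam) lam (succ lam.ord.cof)) ∧
    ((∀ c : Cardinal.{0}, ℵ₀ ≤ c → 2 ^ c = succ c) →
      ∀ lam : Cardinal.{0}, ℵ₀ < lam.ord.cof → lam.ord.cof < lam →
        ¬ Arrow (succ lam) (succ lam) lam (succ lam.ord.cof)) := by
  refine ⟨fun lam h0 hs h2 hmu h => ⟨final h0 hs h2 hmu h, not_arrow h0 hs h2 hmu h⟩,
    fun hG lam hu hs => ?_⟩
  have h0 : ℵ₀ ≤ lam := hu.le.trans hs.le
  refine not_arrow h0 hs (hG lam h0) (fun c hc => ?_) (Or.inl hu)
  rcases lt_or_ge c ℵ₀ with h | h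
  · exact (power_lt_aleph0 (natCast_lt_aleph0 (n := 2)) h).le.trans hu.le
  · rw [hG c h]
    exact succ_le_of_lt hc

end Pool.Agent.Results.MP_38e082_lc.UncountableCofinality
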